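import Pool.Agent.E8helper4.FV.Stm
import Pool.Agent.Y769.SC.Nz

/-!
FV, piece C2: existence of the tangent angle and of its inverse.
-/

set_option autoImplicit false

open Complex MeasureTheory Metric Set Filter Topology ComplexConjugate

namespace Pool.Agent.E8helper85.FV

open Pool.Agent.E8helper4.FV

/-- the logarithm of the derivative -/
lemma exists_L {φ : ℂ → ℂ} {r : ℝ} (hr : 1 < r) (hφ : DifferentiableOn ℂ φ (ball 0 r))
    (hnz : ∀ w ∈ ball (0 : ℂ) r, deriv φ w ≠ 0) :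
    ∃ L : ℂ → ℂ, (∀ w ∈ ball (0 : ℂ) r, HasDerivAt L (deriv (deriv φ) w / deriv φ w) w) ∧
      ∀ w ∈ ball (0 : ℂ) r, deriv φ w = exp (L w) := by
  have h1 : DifferentiableOn ℂ (deriv φ) (ball 0 r) := hφ.deriv isOpen_ball
  have h2 : DifferentiableOn ℂ (deriv (deriv φ)) (ball 0 r) := h1.deriv isOpen_ball
  have h3 : DifferentiableOn ℂ (fun w => deriv (deriv φ) w / deriv φ w) (ball 0 r) :=
    h2.div h1 hnz
  have h0 : (0 : ℂ) ∈ ball (0 : ℂ) r := mem_ball_self (by linarith)
  obtain ⟨L, hL0, hL⟩ := h3.isExactOn_ball.with_val_at 0 (log (deriv φ 0))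
  refine ⟨L, hL, ?_⟩
  have hd : ∀ w ∈ ball (0 : ℂ) r, HasDerivAt (fun w => deriv φ w * exp (-L w)) 0 w := by
    intro w hw
    have e1 : HasDerivAt (deriv φ) (deriv (deriv φ) w) w :=
      ((h1 w hw).differentiableAt (isOpen_ball.mem_nhds hw)).hasDerivAt
    have e2 := e1.mul ((hL w hw).neg.cexp)
    have hn := hnz w hw
    have e3 : deriv (deriv φ) w * exp (-L w) +
        deriv φ w * (exp (-L w) * -(deriv (deriv φ) w / deriv φ w)) = 0 := by
      field_simp
      ring
    have e4 := e2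
    simp only [Pi.neg_apply] at e4
    rw [e3] at e4
    exact e4
  intro w hw
  have h4 : deriv φ w * exp (-L w) = deriv φ 0 * exp (-L 0) :=
    isOpen_ball.is_const_of_deriv_eq_zero (convex_ball (0 : ℂ) r).isPreconnected
      (fun w hw => (hd w hw).differentiableAt.differentiableWithinAt)
      (fun w hw => (hd w hw).deriv) hw h0
  rw [hL0, exp_neg, exp_neg, exp_log (hnz 0 h0), mul_inv_cancel₀ (hnz 0 h0)] at h4
  have h5 : exp (L w) ≠ 0 := exp_ne_zero _
  field_simp at h4
  exact h4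

theorem ang_core {φ : ℂ → ℂ} {r : ℝ} (hr : 1 < r) (hφ : DifferentiableOn ℂ φ (ball 0 r))
    (hnz : ∀ w ∈ ball (0 : ℂ) r, deriv φ w ≠ 0) (hom : ∀ t, 0 < om φ t) :
    ∃ th T : ℝ → ℝ, Ang φ th T := by
  obtain ⟨L, hL, hE⟩ := exists_L hr hφ hnz
  have hmem : ∀ t : ℝ, exp ((t : ℂ) * I) ∈ ball (0 : ℂ) r := by
    intro t
    rw [mem_ball_zero_iff, norm_exp_ofReal_mul_I]
    exact hr
  obtain ⟨th, hth⟩ : ∃ th : ℝ → ℝ, th = fun t : ℝ => t + Real.pi / 2 + (L (exp ((t : ℂ) * I))).im :=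
    ⟨_, rfl⟩
  have hexpt : ∀ t : ℝ, HasDerivAt (fun t : ℝ => exp ((t : ℂ) * I)) (exp ((t : ℂ) * I) * I) t := by
    intro t
    have e1 : HasDerivAt (fun t : ℝ => (t : ℂ) * I) (1 * I) t :=
      (Complex.ofRealCLM.hasDerivAt (x := t)).mul_const I
    rw [one_mul] at e1
    exact e1.cexp
  have hdth : ∀ t : ℝ, HasDerivAt th (om φ t) t := by
    intro t
    have e1 := (hL _ (hmem t)).comp_of_eq t (hexpt t) rfl
    have e2 : HasDerivAt (fun t : ℝ => (L (exp ((t : ℂ) * I))).im)
        (deriv (deriv φ) (exp ((t : ℂ) * I)) / deriv φ (exp ((t : ℂ) * I)) *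
          (exp ((t : ℂ) * I) * I)).im t := by
      have e3 := (Complex.imCLM.hasFDerivAt (x := L (exp ((t : ℂ) * I)))).comp_hasDerivAt t e1
      exact e3
    have e4 : HasDerivAt (fun t : ℝ => t + Real.pi / 2 + (L (exp ((t : ℂ) * I))).im)
        (1 + (deriv (deriv φ) (exp ((t : ℂ) * I)) / deriv φ (exp ((t : ℂ) * I)) *
          (exp ((t : ℂ) * I) * I)).im) t := ((hasDerivAt_id t).add_const (Real.pi / 2)).add e2
    rw [hth]
    refine e4.congr_deriv ?_
    unfold om
    have e5 : deriv (deriv φ) (exp ((t : ℂ) * I)) / deriv φ (exp ((t : ℂ) * I)) *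
        (exp ((t : ℂ) * I) * I) = (exp ((t : ℂ) * I) * deriv (deriv φ) (exp ((t : ℂ) * I)) /
          deriv φ (exp ((t : ℂ) * I))) * I := by ring
    rw [e5, Complex.add_re, Complex.one_re, Complex.mul_I_im]
  have hper : ∀ t : ℝ, th (t + 2 * Real.pi) = th t + 2 * Real.pi := by
    intro t
    rw [hth]
    have e1 : exp (((t + 2 * Real.pi : ℝ) : ℂ) * I) = exp ((t : ℂ) * I) := by
      push_cast
      rw [add_mul, exp_add, exp_two_pi_mul_I, mul_one]
    simp only [e1]
    ring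
  have hmono : StrictMono th := strictMono_of_deriv_pos fun t => by
    rw [(hdth t).deriv]; exact hom t
  have hcont : Continuous th := continuous_iff_continuousAt.2 fun t => (hdth t).continuousAt
  have hP : Function.Periodic (fun t => th t - t) (2 * Real.pi) := by
    intro t
    simp only [hper]
    ring
  have hsurj : Function.Surjective th := by
    intro s
    obtain ⟨n, hn⟩ : ∃ n : ℤ, n = ⌊(s - th 0) / (2 * Real.pi)⌋ := ⟨_, rfl⟩
    have hpi : 0 < 2 * Real.pi := by positivity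
    have h1 : (n : ℝ) ≤ (s - th 0) / (2 * Real.pi) := by rw [hn]; exact Int.floor_le _
    have h2 : (s - th 0) / (2 * Real.pi) < n + 1 := by rw [hn]; exact Int.lt_floor_add_one _
    rw [le_div_iff₀ hpi] at h1
    rw [div_lt_iff₀ hpi] at h2
    have h3 := hP.int_mul_eq n
    have h4 := hP.int_mul_eq (n + 1)
    simp only [sub_zero] at h3 h4
    push_cast at h4
    have h5 : th (n * (2 * Real.pi)) ≤ s := by linarith
    have h6 : s ≤ th ((n + 1) * (2 * Real.pi)) := by linarith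
    have h7 := intermediate_value_Icc (by nlinarith : (n : ℝ) * (2 * Real.pi) ≤
      ((n : ℝ) + 1) * (2 * Real.pi)) hcont.continuousOn
    obtain ⟨t, -, ht⟩ := h7 ⟨h5, h6⟩
    exact ⟨t, ht⟩
  obtain ⟨e, he⟩ : ∃ e : ℝ ≃o ℝ, ∀ t, e t = th t :=
    ⟨hmono.orderIsoOfSurjective th hsurj, fun t => rfl⟩
  have hthT : ∀ s, th (e.symm s) = s := fun s => by rw [← he]; exact e.apply_symm_apply s
  have hTth : ∀ t, e.symm (th t) = t := fun t => by rw [← he]; exact e.symm_apply_apply t
  refine ⟨th, e.symm, ?_, hdth, hper, hthT, hTth, ?_, ?_, e.symm.strictMono⟩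
  · intro t
    rw [hE _ (hmem t), Complex.norm_exp]
    have h1 : I * exp ((t : ℂ) * I) * exp (L (exp ((t : ℂ) * I))) =
        exp ((Real.pi : ℂ) / 2 * I) * exp ((t : ℂ) * I) * exp (L (exp ((t : ℂ) * I))) := by
      rw [exp_pi_div_two_mul_I]
    rw [h1, Complex.ofReal_exp, ← exp_add, ← exp_add, ← exp_add]
    congr 1
    rw [hth]
    push_cast
    have h2 := Complex.re_add_im (L (exp ((t : ℂ) * I)))
    linear_combination -h2
  · intro s
    apply hmono.injective
    rw [hthT, hper, hthT]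
  · intro s
    have h1 : ContinuousAt e.symm s := e.symm.continuous.continuousAt
    have h2 := HasDerivAt.of_local_left_inverse h1 (hdth (e.symm s)) (hom _).ne'
      (Eventually.of_forall hthT)
    rw [one_div]
    exact h2

theorem t_C2 : C2 := fun _ r hr hφ hinj hom =>
  ang_core hr hφ (Pool.Agent.Y769.SC.nz _ r hφ hinj) hom

end Pool.Agent.E8helper85.FV
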